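import Mathlib

/-!
The minimum triple weight of an automaton with a synchronizable triple is at most
`(9/32) n^2 + n + 1`.
-/

namespace Pool.Agent.Results.MP_f4a429_co.TripleWeight

open Finset

variable {n : ℕ}

/-- The action of a word (a list of functions, the head is applied first). -/
def act (w : List (Fin n → Fin n)) (x : Fin n) : Fin n := w.foldl (fun y f => f y) x

/-- `w` is a word over the automaton `Ω`. -/
def IsWord (Ω : Set (Fin n → Fin n)) (w : List (Fin n → Fin n)) : Prop := ∀ f ∈ w, f ∈ Ω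

/-- The word `w` maps all elements of `S` to one state. -/
def Merges (w : List (Fin n → Fin n)) (S : Finset (Fin n)) : Prop := ∃ y, ∀ x ∈ S, act w x = y

/-- `Ω` has a synchronizable 3-set. -/
def HasSyncTriple (Ω : Set (Fin n → Fin n)) : Prop :=
  ∃ S : Finset (Fin n), S.card = 3 ∧ ∃ w, IsWord Ω w ∧ Merges w S

/-- `m(3, Ω)`: the minimum, over all 3-sets `S`, of the length of a shortest word over `Ω` mapping
`S` to one state. -/
noncomputable def minTriple (Ω : Set (Fin n → Fin n)) : ℕ :=
  sInf {k | ∃ S : Finset (Fin n), S.card = 3 ∧ ∃ w, IsWord Ω w ∧ Merges w S ∧ w.length = k}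

/-- `ρ*(3, n)`: the maximum of `m(3, Ω)` over all automata on `n` states which have a
synchronizable 3-set. -/
noncomputable def rhoStar (n : ℕ) : ℕ :=
  sSup {m | ∃ Ω : Set (Fin n → Fin n), HasSyncTriple Ω ∧ m = minTriple Ω}

theorem act_cons (f : Fin n → Fin n) (w : List (Fin n → Fin n)) (x : Fin n) :
    act (f :: w) x = act w (f x) := rfl

theorem act_append (v w : List (Fin n → Fin n)) (x : Fin n) :
    act (v ++ w) x = act w (act v x) := by
  unfold act
  rw [List.foldl_append]

theorem isWord_append {Ω : Set (Fin n → Fin n)} {v w : List (Fin n → Fin n)} (hv : IsWord Ω v)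
    (hw : IsWord Ω w) : IsWord Ω (v ++ w) := by
  intro f hf
  rw [List.mem_append] at hf
  rcases hf with h | h
  · exact hv f h
  · exact hw f h

theorem isWord_take {Ω : Set (Fin n → Fin n)} {v : List (Fin n → Fin n)} (hv : IsWord Ω v)
    (i : ℕ) : IsWord Ω (v.take i) := fun f hf => hv f (List.mem_of_mem_take hf)

theorem isWord_drop {Ω : Set (Fin n → Fin n)} {v : List (Fin n → Fin n)} (hv : IsWord Ω v)
    (i : ℕ) : IsWord Ω (v.drop i) := fun f hf => hv f (List.mem_of_mem_drop hf)

/-- Reachable states are reachable by words of length less than `n`. -/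
theorem short_reach (Ω : Set (Fin n → Fin n)) (r x : Fin n) (h : ∃ v, IsWord Ω v ∧ act v r = x) :
    ∃ v, IsWord Ω v ∧ act v r = x ∧ v.length + 1 ≤ n := by
  classical
  have hex : ∃ k, ∃ v, IsWord Ω v ∧ act v r = x ∧ v.length = k := by
    obtain ⟨v, hv, hx⟩ := h
    exact ⟨v.length, v, hv, hx, rfl⟩
  obtain ⟨v, hv, hx, hlen⟩ := Nat.find_spec hex
  refine ⟨v, hv, hx, ?_⟩
  -- the states on the way are distinct
  have hinj : Function.Injective (fun i : Fin (v.length + 1) => act (v.take i) r) := by
    have key : ∀ i j : Fin (v.length + 1), i < j → act (v.take i) r ≠ act (v.take j) r := by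
      intro i j hij heq
      have h1 : act (v.take i ++ v.drop j) r = x := by
        rw [act_append, heq, ← act_append, List.take_append_drop, hx]
      have h2 := Nat.find_min' hex ⟨v.take i ++ v.drop j,
        isWord_append (isWord_take hv _) (isWord_drop hv _), h1, rfl⟩
      rw [← hlen, List.length_append, List.length_take, List.length_drop] at h2
      have h3 := j.isLt
      have h4 : (i : ℕ) < j := hij
      omega
    intro i j h
    rcases lt_trichotomy i j with h' | h' | h'
    · exact absurd h (key i j h')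
    · exact h'
    · exact absurd h.symm (key j i h')
  have := Fintype.card_le_of_injective _ hinj
  simpa using this

section main

variable (Ω : Set (Fin n → Fin n)) (L : ℕ)
  (hmin : ∀ S : Finset (Fin n), S.card = 3 → ∀ w, IsWord Ω w → Merges w S → L ≤ w.length)

include hmin

theorem three {a b c : Fin n} (hab : a ≠ b) (hac : a ≠ c) (hbc : b ≠ c)
    {w : List (Fin n → Fin n)} (hw : IsWord Ω w) (h1 : act w a = act w b)
    (h2 : act w a = act w c) : L ≤ w.length := by
  apply hmin {a, b, c} (card_eq_three.2 ⟨a, b, c, hab, hac, hbc, rfl⟩) w hw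
  refine ⟨act w a, ?_⟩
  intro x hx
  simp only [mem_insert, mem_singleton] at hx
  rcases hx with rfl | rfl | rfl
  · rfl
  · exact h1.symm
  · exact h2.symm

/-- fibres of short words have at most two elements -/
theorem fibre {w : List (Fin n → Fin n)} (hw : IsWord Ω w) (hlen : w.length < L) (y : Fin n) :
    (univ.filter (fun z => act w z = y)).card ≤ 2 := by
  by_contra hcon
  push Not at hcon
  obtain ⟨a, b, c, ha, hb, hc, hab, hac, hbc⟩ := two_lt_card_iff.1 hcon
  rw [mem_filter] at ha hb hc
  have := three Ω L hmin hab hac hbc hw (ha.2.trans hb.2.symm) (ha.2.trans hc.2.symm)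
  omega

theorem main_bound (hL : ∃ S : Finset (Fin n), S.card = 3 ∧ ∃ w, IsWord Ω w ∧ Merges w S ∧
    w.length = L) (hn : n < L) :
    ∃ ρ : ℕ, ρ ≤ n ∧ (L : ℝ) - 1 - n + ρ * (n - 2) / 4 ≤
      (n : ℝ) * (n - 1) / 2 - ((n - ρ : ℝ)) * ((n - ρ : ℝ) - 1) / 2 := by
  classical
  obtain ⟨T, hT, w, hw, ⟨y₀, hy₀⟩, hlen⟩ := hL
  obtain ⟨a, b, c, hab, hac, hbc, rfl⟩ := card_eq_three.1 hT
  have hn3 : 3 ≤ n := by
    have := card_le_univ ({a, b, c} : Finset (Fin n))
    rw [hT, Fintype.card_fin] at this
    exact this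
  -- the first letter
  cases w with
  | nil => simp at hlen; omega
  | cons f w' =>
  have hf : f ∈ Ω := hw f (by simp)
  have hw' : IsWord Ω w' := fun g hg => hw g (by simp [hg])
  simp only [List.length_cons] at hlen
  have hm : ∀ x ∈ ({a, b, c} : Finset (Fin n)), act w' (f x) = y₀ := fun x hx => hy₀ x hx
  -- the first letter is not injective on the triple
  obtain ⟨p, q, s, hpq, hps, hqs, hfpq, hpm, hsm⟩ : ∃ p q s : Fin n, p ≠ q ∧ p ≠ s ∧ q ≠ s ∧
      f p = f q ∧ act w' (f p) = y₀ ∧ act w' (f s) = y₀ := by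
    by_cases h1 : f a = f b
    · exact ⟨a, b, c, hab, hac, hbc, h1, hm a (by simp), hm c (by simp)⟩
    by_cases h2 : f a = f c
    · exact ⟨a, c, b, hac, hab, hbc.symm, h2, hm a (by simp), hm b (by simp)⟩
    by_cases h3 : f b = f c
    · exact ⟨b, c, a, hbc, hab.symm, hac.symm, h3, hm b (by simp), hm a (by simp)⟩
    exfalso
    have := three Ω L hmin h1 h2 h3 hw' ((hm a (by simp)).trans (hm b (by simp)).symm)
      ((hm a (by simp)).trans (hm c (by simp)).symm)
    omega
  -- merging `r = f p` and any other `f z`-image is expensive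
  have hcost : ∀ (v : List (Fin n → Fin n)), IsWord Ω v → ∀ z, z ≠ p → z ≠ q →
      act v (f p) = act v (f z) → L ≤ v.length + 1 := by
    intro v hv z hzp hzq h
    have h1 := three Ω L hmin (a := p) (b := q) (c := z) hpq (Ne.symm hzp) (Ne.symm hzq)
      (w := f :: v) (by
        intro g hg
        rw [List.mem_cons] at hg
        rcases hg with rfl | hg
        · exact hf
        · exact hv g hg)
      (by rw [act_cons, act_cons, hfpq]) (by rw [act_cons, act_cons]; exact h)
    simpa using h1
  set r := f p with hr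
  set s' := f s with hs'
  -- the closure of `r`
  set R : Finset (Fin n) := univ.filter (fun x => ∃ v, IsWord Ω v ∧ act v r = x) with hR
  -- heavy pairs
  let Hv : Finset (Fin n) → Prop := fun P =>
    ∀ v, IsWord Ω v → (∀ x ∈ P, ∀ y ∈ P, act v x = act v y) → L ≤ v.length + n
  set U : Finset (Finset (Fin n)) := (powersetCard 2 univ).filter (fun P => (P ∩ R).Nonempty)
    with hU
  set H := U.filter Hv with hH
  -- light pairs
  let P : ℕ → Finset (Fin n) := fun i => {act (w'.take i) r, act (w'.take i) s'}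
  have hPne : ∀ i, i + 1 < L → act (w'.take i) r ≠ act (w'.take i) s' := by
    intro i hi h
    have := hcost (w'.take i) (isWord_take hw' i) s (Ne.symm hps) (Ne.symm hqs) h
    rw [List.length_take] at this
    omega
  have hPlow : ∀ i, i + 1 < L → ∀ v, IsWord Ω v →
      (∀ x ∈ P i, ∀ y ∈ P i, act v x = act v y) → L ≤ v.length + i + 1 := by
    intro i hi v hv h
    have h1 : act (w'.take i ++ v) r = act (w'.take i ++ v) s' := by
      rw [act_append, act_append]
      exact h _ (by simp [P]) _ (by simp [P])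
    have := hcost _ (isWord_append (isWord_take hw' i) hv) s (Ne.symm hps) (Ne.symm hqs) h1
    rw [List.length_append, List.length_take] at this
    have h2 : min i w'.length ≤ i := min_le_left _ _
    omega
  have hPmerge : ∀ i, ∀ x ∈ P i, ∀ y ∈ P i, act (w'.drop i) x = act (w'.drop i) y := by
    intro i x hx y hy
    have h1 : ∀ z ∈ P i, act (w'.drop i) z = y₀ := by
      intro z hz
      simp only [P, mem_insert, mem_singleton] at hz
      rcases hz with rfl | rfl
      · rw [← act_append, List.take_append_drop]; exact hpm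
      · rw [← act_append, List.take_append_drop]; exact hsm
    rw [h1 x hx, h1 y hy]
  have hPU : ∀ i, i + 1 < L → P i ∈ U := by
    intro i hi
    rw [hU, mem_filter, mem_powersetCard]
    refine ⟨⟨subset_univ _, card_pair (hPne i hi)⟩, act (w'.take i) r, ?_⟩
    rw [mem_inter, hR, mem_filter]
    exact ⟨by simp [P], mem_univ _, w'.take i, isWord_take hw' i, rfl⟩
  have hPlight : ∀ i, n ≤ i → i + 1 < L → ¬ Hv (P i) := by
    intro i hi hiL h
    have := h (w'.drop i) (isWord_drop hw' i) (hPmerge i)
    rw [List.length_drop] at this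
    omega
  have hPinj : ∀ i j, i < j → j + 1 < L → P i ≠ P j := by
    intro i j hij hj h
    have h1 := hPlow i (by omega) (w'.drop j) (isWord_drop hw' j) (by
      rw [h]; exact hPmerge j)
    rw [List.length_drop] at h1
    omega
  have hlight : L - 1 - n ≤ (U.filter (fun Q => ¬ Hv Q)).card := by
    have h1 : (Finset.Ico n (L - 1)).card = L - 1 - n := by simp
    rw [← h1]
    apply card_le_card_of_injOn P
    · intro i hi
      rw [mem_coe, mem_Ico] at hi
      rw [mem_coe, mem_filter]
      exact ⟨hPU i (by omega), hPlight i hi.1 (by omega)⟩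
    · intro i hi j hj h
      rw [mem_coe, mem_Ico] at hi hj
      rcases lt_trichotomy i j with h' | h' | h'
      · exact absurd h (hPinj i j h' (by omega))
      · exact h'
      · exact absurd h.symm (hPinj j i h' (by omega))
  -- heavy pairs at every point of R
  have hheavy : ∀ x ∈ R, n - 2 ≤ 2 * (H.filter (fun Q => x ∈ Q)).card := by
    intro x hx
    have hxR := hx
    rw [hR, mem_filter] at hx
    obtain ⟨v, hv, hvx, hvlen⟩ := short_reach Ω r x hx.2
    have hfv : IsWord Ω (f :: v) := by
      intro g hg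
      rw [List.mem_cons] at hg
      rcases hg with rfl | hg
      · exact hf
      · exact hv g hg
    have hfvlen : (f :: v).length < L := by
      rw [List.length_cons]; omega
    have hne : ∀ z, z ≠ p → z ≠ q → act (f :: v) z ≠ x := by
      intro z hzp hzq h
      have h1 := hcost v hv z hzp hzq (by
        rw [hvx]
        rw [act_cons] at h
        exact h.symm)
      omega
    have hcard : ((univ : Finset (Fin n)).filter (fun z => z ≠ p ∧ z ≠ q)).card = n - 2 := by
      have : (univ : Finset (Fin n)).filter (fun z => z ≠ p ∧ z ≠ q) = ({p, q} : Finset _)ᶜ := by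
        ext z; simp
      rw [this, card_compl, card_pair hpq, Fintype.card_fin]
    rw [← hcard, mul_comm]
    have h2 := card_le_mul_card_image_of_maps_to
      (s := (univ : Finset (Fin n)).filter (fun z => z ≠ p ∧ z ≠ q))
      (t := H.filter (fun Q => x ∈ Q)) (f := fun z => {x, act (f :: v) z}) ?_ 2 ?_
    · rw [mul_comm] at h2
      exact h2
    · intro z hz
      rw [mem_filter] at hz
      obtain ⟨-, hzp, hzq⟩ := hz
      rw [mem_filter, hH, mem_filter, hU, mem_filter, mem_powersetCard]
      refine ⟨⟨⟨⟨subset_univ _, card_pair (Ne.symm (hne z hzp hzq))⟩, x, ?_⟩, ?_⟩, by simp⟩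
      · rw [mem_inter]
        exact ⟨by simp, hxR⟩
      · intro u hu hmerge
        have h3 := hmerge x (by simp) (act (f :: v) z) (by simp)
        have h4 := hcost (v ++ u) (isWord_append hv hu) z hzp hzq (by
          rw [act_append, act_append, hvx, h3]
          rfl)
        rw [List.length_append] at h4
        omega
    · intro Q hQ
      rw [mem_filter, hH, mem_filter, hU, mem_filter, mem_powersetCard] at hQ
      obtain ⟨⟨⟨⟨-, hQ2⟩, -⟩, -⟩, hxQ⟩ := hQ
      -- Q = {x, y}
      obtain ⟨y, hy⟩ : ∃ y, Q.erase x = {y} := by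
        rw [← card_eq_one, card_erase_of_mem hxQ, hQ2]
      refine le_trans (card_le_card ?_) (fibre Ω L hmin hfv hfvlen y)
      intro z hz
      rw [mem_filter, mem_filter] at hz
      obtain ⟨⟨-, hzp, hzq⟩, hzQ⟩ := hz
      rw [mem_filter]
      refine ⟨mem_univ _, ?_⟩
      have h5 : act (f :: v) z ∈ Q.erase x := by
        rw [mem_erase]
        exact ⟨hne z hzp hzq, by rw [← hzQ]; simp⟩
      rw [hy, mem_singleton] at h5
      exact h5
  -- double counting
  have hdouble : R.card * (n - 2) ≤ 4 * H.card := by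
    have h1 : ∑ x ∈ R, (n - 2) ≤ ∑ x ∈ R, 2 * (H.filter (fun Q => x ∈ Q)).card :=
      sum_le_sum hheavy
    rw [sum_const, smul_eq_mul, ← mul_sum] at h1
    have h2 : ∑ x ∈ R, (H.filter (fun Q => x ∈ Q)).card ≤ 2 * H.card := by
      simp only [card_filter]
      rw [sum_comm]
      have h3 : ∀ Q ∈ H, (∑ x ∈ R, if x ∈ Q then 1 else 0) ≤ 2 := by
        intro Q hQ
        rw [hH, mem_filter, hU, mem_filter, mem_powersetCard] at hQ
        rw [← card_filter]
        calc (R.filter (fun x => x ∈ Q)).card ≤ Q.card := card_le_card (by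
              intro x hx
              rw [mem_filter] at hx
              exact hx.2)
          _ = 2 := hQ.1.1.2
      calc ∑ Q ∈ H, (∑ x ∈ R, if x ∈ Q then 1 else 0) ≤ ∑ Q ∈ H, 2 := sum_le_sum h3
        _ = 2 * H.card := by rw [sum_const, smul_eq_mul, mul_comm]
    omega
  have hUcard : U.card + ((univ \ R).card).choose 2 = n.choose 2 := by
    have h1 : ((powersetCard 2 (univ : Finset (Fin n))).filter
        (fun Q => ¬ (Q ∩ R).Nonempty)) = powersetCard 2 (univ \ R) := by
      ext Q
      rw [mem_filter, mem_powersetCard, mem_powersetCard, not_nonempty_iff_eq_empty,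
        subset_sdiff, ← disjoint_iff_inter_eq_empty]
      tauto
    rw [← card_powersetCard, ← h1, hU, card_filter_add_card_filter_not, card_powersetCard]
    simp
  have hsplit := card_filter_add_card_filter_not (s := U) Hv
  rw [← hH] at hsplit
  have hRn : R.card ≤ n := by
    have := card_le_univ R
    rwa [Fintype.card_fin] at this
  have hdiff : (univ \ R).card = n - R.card := by
    rw [card_sdiff_of_subset (subset_univ _), card_univ, Fintype.card_fin]
  refine ⟨R.card, hRn, ?_⟩
  rw [hdiff] at hUcard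
  have e1 : ((U.card : ℕ) : ℝ) + (((n - R.card : ℕ).choose 2 : ℕ) : ℝ) = ((n.choose 2 : ℕ) : ℝ) := by
    exact_mod_cast hUcard
  rw [Nat.cast_choose_two, Nat.cast_choose_two, Nat.cast_sub hRn] at e1
  have e2 : ((L - 1 - n : ℕ) : ℝ) = (L : ℝ) - 1 - n := by
    rw [Nat.cast_sub (by omega), Nat.cast_sub (by omega)]; simp
  have e3 : ((L - 1 - n : ℕ) : ℝ) ≤ ((U.filter (fun Q => ¬ Hv Q)).card : ℝ) := by
    exact_mod_cast hlight
  have e4 : (R.card : ℝ) * ((n : ℝ) - 2) ≤ 4 * H.card := by
    have : ((R.card * (n - 2) : ℕ) : ℝ) ≤ ((4 * H.card : ℕ) : ℝ) := by exact_mod_cast hdouble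
    rw [Nat.cast_mul, Nat.cast_sub (by omega), Nat.cast_mul] at this
    push_cast at this
    exact this
  have e5 : (H.card : ℝ) + ((U.filter (fun Q => ¬ Hv Q)).card : ℝ) = (U.card : ℝ) := by
    exact_mod_cast hsplit
  rw [e2] at e3
  linarith

end main

theorem minTriple_le (Ω : Set (Fin n → Fin n)) (h : HasSyncTriple Ω) :
    (minTriple Ω : ℝ) ≤ 9 / 32 * (n : ℝ) ^ 2 + n + 1 := by
  set L := minTriple Ω with hLdef
  have hne : {k | ∃ S : Finset (Fin n), S.card = 3 ∧ ∃ w, IsWord Ω w ∧ Merges w S ∧
      w.length = k}.Nonempty := by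
    obtain ⟨S, hS, w, hw, hm⟩ := h
    exact ⟨w.length, S, hS, w, hw, hm, rfl⟩
  have hmem := Nat.sInf_mem hne
  have hmin : ∀ S : Finset (Fin n), S.card = 3 → ∀ w, IsWord Ω w → Merges w S →
      L ≤ w.length := by
    intro S hS w hw hm
    exact Nat.sInf_le ⟨S, hS, w, hw, hm, rfl⟩
  have hn0 : (0 : ℝ) ≤ n := Nat.cast_nonneg n
  by_cases hn : n < L
  · obtain ⟨ρ, hρ, hb⟩ := main_bound Ω L hmin hmem hn
    nlinarith [sq_nonneg ((ρ : ℝ) - 3 / 4 * n)]
  · have : (L : ℝ) ≤ n := by exact_mod_cast not_lt.1 hn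
    nlinarith [sq_nonneg (n : ℝ)]

/-- For every `n`, `ρ*(3, n) ≤ (9/32) n² + n + 1`. -/
theorem result (n : ℕ) : (rhoStar n : ℝ) ≤ 9 / 32 * (n : ℝ) ^ 2 + n + 1 := by
  by_cases hne : {m | ∃ Ω : Set (Fin n → Fin n), HasSyncTriple Ω ∧ m = minTriple Ω}.Nonempty
  · have hbdd : BddAbove {m | ∃ Ω : Set (Fin n → Fin n), HasSyncTriple Ω ∧ m = minTriple Ω} := by
      refine ⟨⌊9 / 32 * (n : ℝ) ^ 2 + n + 1⌋₊, ?_⟩
      rintro m ⟨Ω, hΩ, rfl⟩
      exact Nat.le_floor (minTriple_le Ω hΩ)
    obtain ⟨Ω, hΩ, h⟩ := Nat.sSup_mem hne hbdd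
    unfold rhoStar
    rw [h]
    exact minTriple_le Ω hΩ
  · rw [Set.not_nonempty_iff_eq_empty] at hne
    unfold rhoStar
    rw [hne]
    simp
    positivity

end Pool.Agent.Results.MP_f4a429_co.TripleWeight
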